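import Mathlib

/-!
# MP_5baea4: no inversion-minimal matrix of shape `(8,8,1,1)` is Hankel
-/

namespace Pool.Agent.Results.MP_5baea4_co.NonHankelMinimal

/-- RSK row insertion of `x` into a row: `x` replaces the leftmost entry greater than `x`, which is
bumped (`some y`); if there is none, `x` is put at the end (`none`) -/
def rowIns : List ℕ → ℕ → List ℕ × Option ℕ
  | [], x => ([x], none)
  | y :: ys, x => if x < y then (x :: ys, some y) else (y :: (rowIns ys x).1, (rowIns ys x).2)

/-- RSK insertion of `x` into a tableau given by the list of its rows -/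
def tabIns : List (List ℕ) → ℕ → List (List ℕ)
  | [], x => [[x]]
  | r :: rs, x =>
    match (rowIns r x).2 with
    | none => (rowIns r x).1 :: rs
    | some y => (rowIns r x).1 :: tabIns rs y

/-- insertion tableau `P` of a word -/
def insTab (w : List ℕ) : List (List ℕ) := w.foldl tabIns []

/-- bottom row of the two-line array of `M` -/
def word {n : ℕ} (M : Matrix (Fin n) (Fin n) ℕ) : List ℕ :=
  (List.finRange n).flatMap fun i => (List.finRange n).flatMap fun j =>
    List.replicate (M i j) (j : ℕ)

/-- shape of `M` under RSK: the row lengths of `P` -/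
def shape {n : ℕ} (M : Matrix (Fin n) (Fin n) ℕ) : List ℕ := (insTab (word M)).map List.length

/-- inversion number -/
def inv {n : ℕ} (M : Matrix (Fin n) (Fin n) ℕ) : ℕ :=
  ∑ i, ∑ j, ∑ k, ∑ l, if i < k ∧ l < j then M i j * M k l else 0

/-- `M` has shape `lam` and the least inversion number among the matrices of shape `lam` -/
def Minimal {n : ℕ} (lam : List ℕ) (M : Matrix (Fin n) (Fin n) ℕ) : Prop :=
  shape M = lam ∧ ∀ N : Matrix (Fin n) (Fin n) ℕ, shape N = lam → inv M ≤ inv N

/-- `m_{i,j} = s_{i+j}` for integers `s_2, ..., s_{2n}` (rows and columns numbered from `1`) -/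
def Hankel {n : ℕ} (M : Matrix (Fin n) (Fin n) ℕ) : Prop :=
  ∃ s : ℕ → ℤ, ∀ i j : Fin n, (M i j : ℤ) = s ((i : ℕ) + 1 + ((j : ℕ) + 1))

/-! ### the size of the shape -/

theorem rowIns_none (r : List ℕ) (x : ℕ) (h : (rowIns r x).2 = none) :
    (rowIns r x).1.length = r.length + 1 := by
  induction r with
  | nil => rfl
  | cons y ys ih =>
    unfold rowIns at h ⊢
    split_ifs at h ⊢ with h1
    simp only [List.length_cons]
    rw [ih h]

theorem rowIns_some (r : List ℕ) (x y : ℕ) (h : (rowIns r x).2 = some y) :
    (rowIns r x).1.length = r.length := by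
  induction r with
  | nil => simp [rowIns] at h
  | cons z ys ih =>
    unfold rowIns at h ⊢
    split_ifs at h ⊢ with h1
    · rfl
    · simp only [List.length_cons]
      rw [ih h]

theorem tabIns_size (t : List (List ℕ)) : ∀ x : ℕ,
    ((tabIns t x).map List.length).sum = (t.map List.length).sum + 1 := by
  induction t with
  | nil => intro x; rfl
  | cons r rs ih =>
    intro x
    unfold tabIns
    cases h : (rowIns r x).2 with
    | none =>
      simp only [List.map_cons, List.sum_cons, rowIns_none r x h]
      ring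
    | some y =>
      simp only [List.map_cons, List.sum_cons, rowIns_some r x y h, ih y]
      ring

theorem foldl_size (w : List ℕ) : ∀ t : List (List ℕ),
    ((w.foldl tabIns t).map List.length).sum = (t.map List.length).sum + w.length := by
  induction w with
  | nil => intro t; rfl
  | cons x w ih =>
    intro t
    rw [List.foldl_cons, ih, tabIns_size, List.length_cons]
    ring

theorem shape_sum {n : ℕ} (M : Matrix (Fin n) (Fin n) ℕ) : (shape M).sum = (word M).length := by
  unfold shape insTab
  rw [foldl_size]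
  simp

/-! ### Hankel matrices of size `4` -/

/-- word of the Hankel matrix with antidiagonal entries `a, b, c, d, e, f, g` -/
def wordH (a b c d e f g : ℕ) : List ℕ :=
  List.replicate a 0 ++ (List.replicate b 1 ++ (List.replicate c 2 ++ (List.replicate d 3 ++
  (List.replicate b 0 ++ (List.replicate c 1 ++ (List.replicate d 2 ++ (List.replicate e 3 ++
  (List.replicate c 0 ++ (List.replicate d 1 ++ (List.replicate e 2 ++ (List.replicate f 3 ++
  (List.replicate d 0 ++ (List.replicate e 1 ++ (List.replicate f 2 ++ List.replicate g 3))))))))))))))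

/-- the Hankel matrix -/
def matH (a b c d e f g : ℕ) : Matrix (Fin 4) (Fin 4) ℕ :=
  !![a, b, c, d; b, c, d, e; c, d, e, f; d, e, f, g]

/-- its inversion number -/
def invH (b c d e f : ℕ) : ℕ :=
  b * (b + c + d) + c * (b + c + c + d + d + e) + d * (b + c + d + c + d + e + d + e + f) +
  c * (c + d) + d * (c + d + d + e) + e * (c + d + e + d + e + f) +
  d * d + e * (d + e) + f * (d + e + f)

/-- the check for one tuple -/
def okOne (a b c d e f g : ℕ) : Bool :=
  Nat.ble 44 (invH b c d e f) ||
    !(decide ((insTab (wordH a b c d e f g)).map List.length = [8, 8, 1, 1]))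

/-- the check for all tuples with total `18` -/
def okAll : Bool :=
  (List.range 10).all fun b => (List.range 7).all fun c => (List.range 5).all fun d =>
  (List.range 7).all fun e => (List.range 10).all fun f =>
    bif Nat.ble (2 * b + 3 * c + 4 * d + 3 * e + 2 * f) 18 then
      (List.range (19 - (2 * b + 3 * c + 4 * d + 3 * e + 2 * f))).all fun g =>
        okOne (18 - (2 * b + 3 * c + 4 * d + 3 * e + 2 * f) - g) b c d e f g
    else true

theorem okAll_true : okAll = true := by decide +kernel

theorem word_matH (a b c d e f g : ℕ) : word (matH a b c d e f g) = wordH a b c d e f g := by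
  have h4 : List.finRange 4 = [0, 1, 2, 3] := by rfl
  unfold word wordH
  rw [h4]
  simp [matH, List.flatMap_cons]

theorem inv_matH (a b c d e f g : ℕ) : inv (matH a b c d e f g) = invH b c d e f := by
  unfold inv invH
  simp [matH, Fin.sum_univ_four]
  ring

theorem length_wordH (a b c d e f g : ℕ) :
    (wordH a b c d e f g).length = a + 2 * b + 3 * c + 4 * d + 3 * e + 2 * f + g := by
  unfold wordH
  simp only [List.length_append, List.length_replicate]
  ring

theorem hankel_eq (N : Matrix (Fin 4) (Fin 4) ℕ) (h : Hankel N) :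
    ∃ a b c d e f g, N = matH a b c d e f g := by
  obtain ⟨s, hs⟩ := h
  have key : ∀ i j i' j' : Fin 4, (i : ℕ) + j = (i' : ℕ) + j' → N i j = N i' j' := by
    intro i j i' j' hij
    have h1 := hs i j
    have h2 := hs i' j'
    have h3 : (i : ℕ) + 1 + ((j : ℕ) + 1) = (i' : ℕ) + 1 + ((j' : ℕ) + 1) := by omega
    rw [h3, ← h2] at h1
    exact_mod_cast h1
  refine ⟨N 0 0, N 0 1, N 0 2, N 0 3, N 1 3, N 2 3, N 3 3, ?_⟩
  ext i j
  fin_cases i <;> fin_cases j <;> simp [matH] <;> apply key <;> decide

theorem okOne_of (a b c d e f g : ℕ)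
    (h : a + 2 * b + 3 * c + 4 * d + 3 * e + 2 * f + g = 18) : okOne a b c d e f g = true := by
  have H := okAll_true
  unfold okAll at H
  simp only [List.all_eq_true, List.mem_range] at H
  have := H b (by omega) c (by omega) d (by omega) e (by omega) f (by omega)
  have hb : Nat.ble (2 * b + 3 * c + 4 * d + 3 * e + 2 * f) 18 = true :=
    Nat.ble_eq.mpr (by omega)
  rw [hb, cond_true] at this
  simp only [List.all_eq_true, List.mem_range] at this
  have := this g (by omega)
  have e : 18 - (2 * b + 3 * c + 4 * d + 3 * e + 2 * f) - g = a := by omega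
  rw [e] at this
  exact this

/-- every Hankel matrix of shape `(8,8,1,1)` has at least `44` inversions -/
theorem hankel_ge (N : Matrix (Fin 4) (Fin 4) ℕ) (h : Hankel N) (hs : shape N = [8, 8, 1, 1]) :
    44 ≤ inv N := by
  obtain ⟨a, b, c, d, e, f, g, rfl⟩ := hankel_eq N h
  have hsum := shape_sum (matH a b c d e f g)
  rw [hs, word_matH, length_wordH] at hsum
  have hok := okOne_of a b c d e f g (by simpa using hsum.symm)
  unfold okOne at hok
  unfold shape at hs
  rw [word_matH] at hs
  rw [hs] at hok
  rw [inv_matH]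
  simpa using hok

/-- the matrix -/
def M0 : Matrix (Fin 4) (Fin 4) ℕ := !![0, 3, 0, 1; 3, 0, 2, 0; 0, 2, 0, 3; 1, 0, 3, 0]

theorem shape_M0 : shape M0 = [8, 8, 1, 1] := by decide +kernel

theorem inv_M0 : inv M0 = 43 := by decide +kernel

/-- Q1 is false: there are minimal matrices of shape `(8,8,1,1)`, and none of them is Hankel -/
theorem result : (∃ M : Matrix (Fin 4) (Fin 4) ℕ, Minimal [8, 8, 1, 1] M) ∧
    ∀ M : Matrix (Fin 4) (Fin 4) ℕ, Minimal [8, 8, 1, 1] M → ¬ Hankel M := by
  classical
  have hex : ∃ v, ∃ N : Matrix (Fin 4) (Fin 4) ℕ, shape N = [8, 8, 1, 1] ∧ inv N = v :=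
    ⟨_, M0, shape_M0, rfl⟩
  obtain ⟨N, hN, hNv⟩ := Nat.find_spec hex
  refine ⟨⟨N, hN, fun K hK => ?_⟩, ?_⟩
  · rw [hNv]
    exact Nat.find_min' hex ⟨K, hK, rfl⟩
  · intro M hM hH
    have h1 := hankel_ge M hH hM.1
    have h2 := hM.2 M0 shape_M0
    rw [inv_M0] at h2
    omega

end Pool.Agent.Results.MP_5baea4_co.NonHankelMinimal
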